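import Mathlib

set_option autoImplicit false

namespace Pool.Agent.H.MP_8e29f8_al

open Equiv

/-- the affine group of dimension three over the field with two elements -/
def LL : Subgroup (Perm (Fin 8)) where
  carrier := {σ | ∀ a b c : Fin 8, σ (a ^^^ b ^^^ c) = σ a ^^^ σ b ^^^ σ c}
  one_mem' := fun _ _ _ => rfl
  mul_mem' := fun {σ τ} hσ hτ a b c => by
    simp only [Perm.mul_apply]
    rw [hτ, hσ]
  inv_mem' := fun {σ} hσ a b c => by
    apply σ.injective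
    rw [hσ]
    simp

/-- affine map with prescribed values -/
def af (a b c d : Fin 8) : Fin 8 → Fin 8 :=
  ![a, b, c, b ^^^ c ^^^ a, d, b ^^^ d ^^^ a, c ^^^ d ^^^ a, b ^^^ c ^^^ d]

theorem eq_af (σ : LL) : ⇑(σ : Perm (Fin 8)) = af (σ.1 0) (σ.1 1) (σ.1 2) (σ.1 4) := by
  funext x
  fin_cases x
  · rfl
  · rfl
  · rfl
  · exact σ.2 1 2 0
  · rfl
  · exact σ.2 1 4 0
  · exact σ.2 2 4 0
  · exact σ.2 1 2 4

/-- an involution -/
def t0 : LL := ⟨⟨![0, 1, 3, 2, 4, 5, 7, 6], ![0, 1, 3, 2, 4, 5, 7, 6], by decide, by decide⟩,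
  by change ∀ a b c : Fin 8, _; decide⟩

/-- an element of order seven -/
def g0 : LL := ⟨⟨![0, 2, 4, 6, 3, 1, 7, 5], ![0, 5, 1, 4, 2, 7, 3, 6], by decide, by decide⟩,
  by change ∀ a b c : Fin 8, _; decide⟩

/-- test function -/
def tf (g : Fin 8 → Fin 8) (i : ℕ) : Fin 8 → Fin 8 :=
  ![0, 1, 3, 2, 4, 5, 7, 6] ∘ g^[i] ∘ ![0, 1, 3, 2, 4, 5, 7, 6] ∘ g^[7 - i]

theorem brute1 : ∀ a b c d : Fin 8, (∀ x, (af a b c d)^[7] x = x) → (∃ x, af a b c d x ≠ x) →
    ∃ i : Fin 7, (∃ x, (tf (af a b c d) i)^[2] x ≠ x) ∧ ∀ x, (tf (af a b c d) i)^[6] x = x := by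
  decide +kernel

theorem brute2 : ∀ a b c d : Fin 8, (∀ x, (af a b c d)^[2] x = x) →
    (∃ i : Fin 7, ∀ x, af a b c d (![0, 2, 4, 6, 3, 1, 7, 5] x) =
      (![0, 2, 4, 6, 3, 1, 7, 5] : Fin 8 → Fin 8)^[i] (af a b c d x)) → ∀ x, af a b c d x = x := by
  decide +kernel

theorem card_norm {G : Type} [Group G] [Finite G] {p : ℕ} [Fact p.Prime] (P Q : Sylow p G) :
    Nat.card (Subgroup.normalizer (P : Set G)) = Nat.card (Subgroup.normalizer (Q : Set G)) := by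
  have h1 := (Subgroup.normalizer (P : Set G)).card_mul_index
  have h2 := (Subgroup.normalizer (Q : Set G)).card_mul_index
  rw [← Sylow.card_eq_index_normalizer] at h1 h2
  exact Nat.eq_of_mul_eq_mul_right Nat.card_pos (h1.trans h2.symm)

theorem ex_ord {G : Type} [Group G] [Finite G] (H : Subgroup G) (q : ℕ) [Fact q.Prime]
    (h : q ∣ Nat.card H) : ∃ g ∈ H, g ^ q = 1 ∧ g ≠ 1 := by
  obtain ⟨g, hg⟩ := exists_prime_orderOf_dvd_card' q h
  refine ⟨g, g.2, ?_, fun e => ?_⟩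
  · rw [← hg, ← Subgroup.coe_pow, pow_orderOf_eq_one, Subgroup.coe_one]
  · have : g = 1 := Subtype.ext e
    rw [this, orderOf_one] at hg
    exact (Fact.out : q.Prime).one_lt.ne hg

theorem coe_pow_L (g : LL) (n : ℕ) : ⇑((g ^ n : LL) : Perm (Fin 8)) = (⇑(g : Perm (Fin 8)))^[n] := by
  rw [Subgroup.coe_pow, Perm.coe_pow]

theorem ext_L {g h : LL} (e : ∀ x, g.1 x = h.1 x) : g = h := Subtype.ext (Equiv.ext e)

instance : Fact (Nat.Prime 7) := ⟨by norm_num⟩

theorem norm2 (Q : Sylow 2 LL) : ¬ 7 ∣ Nat.card (Subgroup.normalizer (Q : Set LL)) := by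
  have ht : IsPGroup 2 (Subgroup.zpowers t0) := by
    refine IsPGroup.of_card (n := 1) ?_
    rw [Nat.card_zpowers, pow_one]
    exact orderOf_eq_prime (ext_L (by decide)) (fun h => by
      have := congrArg (fun g : LL => g.1 2) h
      revert this
      decide)
  obtain ⟨R, hR⟩ := ht.exists_le_sylow
  rw [card_norm Q R]
  intro h
  obtain ⟨g, hg, h7, hne⟩ := ex_ord _ 7 h
  have ht0 : t0 ∈ (R : Subgroup LL) := hR (Subgroup.mem_zpowers _)
  obtain ⟨i, ⟨x, h1⟩, h2⟩ := brute1 (g.1 0) (g.1 1) (g.1 2) (g.1 4) (fun x => by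
    rw [← eq_af, ← coe_pow_L, h7]
    rfl) (by
    rw [← eq_af]
    by_contra hc
    push Not at hc
    exact hne (ext_L hc))
  have e : tf (af (g.1 0) (g.1 1) (g.1 2) (g.1 4)) i =
      ⇑((t0 * (g ^ (i : ℕ) * t0 * g ^ (7 - (i : ℕ))) : LL) : Perm (Fin 8)) := by
    rw [← eq_af]
    simp only [tf, Subgroup.coe_mul, Perm.coe_mul, coe_pow_L]
    rfl
  have hinv : g ^ (7 - (i : ℕ)) = (g ^ (i : ℕ))⁻¹ := by
    rw [eq_inv_iff_mul_eq_one, ← pow_add, Nat.sub_add_cancel i.2.le, h7]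
  have hm : t0 * (g ^ (i : ℕ) * t0 * g ^ (7 - (i : ℕ))) ∈ (R : Subgroup LL) := by
    rw [hinv]
    exact Subgroup.mul_mem _ ht0 ((Subgroup.pow_mem _ hg (i : ℕ) t0).1 ht0)
  rw [e] at h1 h2
  simp only [← coe_pow_L] at h1 h2
  generalize t0 * (g ^ (i : ℕ) * t0 * g ^ (7 - (i : ℕ))) = y at *
  have h6 : (y ^ 2) ^ 3 = 1 := by
    rw [← pow_mul]
    exact ext_L h2
  obtain ⟨k, hk⟩ := R.isPGroup' ⟨y ^ 2, Subgroup.pow_mem _ hm 2⟩
  have hk' : (y ^ 2) ^ 2 ^ k = 1 := congrArg Subtype.val hk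
  have h3 : orderOf (y ^ 2) = 1 := Nat.eq_one_of_dvd_coprimes
    (Nat.Coprime.pow_right k (by norm_num : Nat.Coprime 3 2))
    (orderOf_dvd_of_pow_eq_one h6) (orderOf_dvd_of_pow_eq_one hk')
  rw [orderOf_eq_one_iff] at h3
  rw [h3] at h1
  exact h1 rfl

theorem norm7 (P : Sylow 7 LL) : ¬ 2 ∣ Nat.card (Subgroup.normalizer (P : Set LL)) := by
  have ho : orderOf g0 = 7 := orderOf_eq_prime (ext_L (by decide)) (fun h => by
      have := congrArg (fun g : LL => g.1 2) h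
      revert this
      decide)
  have ht : IsPGroup 7 (Subgroup.zpowers g0) := by
    refine IsPGroup.of_card (n := 1) ?_
    rw [Nat.card_zpowers, ho]
    rfl
  obtain ⟨R, hR⟩ := ht.exists_le_sylow
  have hR2 : Subgroup.zpowers g0 = R := by
    refine Subgroup.eq_of_le_of_card_ge hR ?_
    obtain ⟨k, hk⟩ := IsPGroup.iff_card.1 R.isPGroup'
    have h1 : Nat.card R ∣ Nat.factorial 8 := by
      have := ((R : Subgroup LL).card_subgroup_dvd_card).trans LL.card_subgroup_dvd_card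
      rwa [Nat.card_perm, Nat.card_eq_fintype_card (α := Fin 8), Fintype.card_fin] at this
    rw [Nat.card_zpowers, ho, hk]
    rw [hk] at h1
    by_contra hc
    have h2 : 2 ≤ k := by
      by_contra h3
      have : k = 0 ∨ k = 1 := by omega
      rcases this with rfl | rfl <;> simp at hc
    exact absurd ((pow_dvd_pow 7 h2).trans h1) (by decide)
  rw [card_norm P R]
  intro h
  obtain ⟨t, ht, h2, hne⟩ := ex_ord _ 2 h
  have h3 : t * g0 * t⁻¹ ∈ Subgroup.zpowers g0 := by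
    rw [hR2]
    exact (ht g0).1 (hR (Subgroup.mem_zpowers _))
  classical
  rw [mem_zpowers_iff_mem_range_orderOf, ho, Finset.mem_image] at h3
  obtain ⟨i, hi, h4⟩ := h3
  have h5 : t * g0 = g0 ^ i * t := by rw [h4, inv_mul_cancel_right]
  refine hne (ext_L fun x => ?_)
  have := brute2 (t.1 0) (t.1 1) (t.1 2) (t.1 4) (fun x => by
    rw [← eq_af, ← coe_pow_L, h2]
    rfl) ⟨⟨i, Finset.mem_range.1 hi⟩, fun x => by
      rw [← eq_af]
      have := congrArg (fun g : LL => g.1 x) h5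
      simp only [Subgroup.coe_mul, Perm.mul_apply, coe_pow_L] at this
      exact this⟩ x
  rw [← eq_af] at this
  exact this

end Pool.Agent.H.MP_8e29f8_al
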