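import Pool.Agent.H.MP_8e29f8_al.A

set_option autoImplicit false

namespace Pool.Agent.H.MP_8e29f8_al

open Equiv

/-- arc of the Sylow graph -/
def Arc (H : Type) [Group H] (p q : ℕ) : Prop :=
  ∃ P : Sylow p H, q ∣ ((P : Subgroup H) ⊔ Subgroup.centralizer (P : Set H)).relIndex
    (Subgroup.normalizer (P : Set H))

/-- edge of the undirected Sylow graph -/
def Edge (H : Type) [Group H] (p q : ℕ) : Prop :=
  p.Prime ∧ q.Prime ∧ p ≠ q ∧ (Arc H p q ∨ Arc H q p)

theorem idx_dvd {G L : Type} [Group G] [Group L] [Finite G] (π : G →* L)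
    (hπ : Function.Surjective π) {p : ℕ} [Fact p.Prime] (P : Sylow p G) (D : Subgroup G)
    (h : ∀ x ∈ π.ker, x ∈ Subgroup.normalizer (P : Set G) → x ∈ D) :
    D.relIndex (Subgroup.normalizer (P : Set G)) ∣
      Nat.card (Subgroup.normalizer ((P.mapSurjective hπ : Sylow p L) : Set L)) := by
  let N := Subgroup.normalizer (P : Set G)
  have h1 : (π.comp N.subtype).ker ≤ D.subgroupOf N := fun x hx => h x.1 hx x.2
  refine (Subgroup.index_dvd_of_le h1).trans ?_
  rw [Subgroup.index_ker]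
  refine Subgroup.card_dvd_of_le ?_
  rintro _ ⟨x, rfl⟩
  exact Subgroup.le_normalizer_map (H := (P : Subgroup G)) π ⟨x.1, x.2, rfl⟩

/-- the base group -/
abbrev VV : Type := Option (Fin 8) → Multiplicative (ZMod 7)

/-- the action on the base group -/
def ph : LL →* MulAut VV := mulAutArrow

theorem ph_apply (σ : LL) (v : VV) (a : Option (Fin 8)) : ph σ v a = v (σ⁻¹ • a) := rfl

/-- the group -/
abbrev GG : Type := VV ⋊[ph] LL

instance : Finite GG := Finite.of_equiv _ SemidirectProduct.equivProd.symm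

/-- projection -/
abbrev pr : GG →* LL := SemidirectProduct.rightHom

theorem ker7 : IsPGroup 7 pr.ker := by
  rintro ⟨x, hx⟩
  rw [← SemidirectProduct.range_inl_eq_ker_rightHom] at hx
  obtain ⟨v, rfl⟩ := hx
  refine ⟨1, Subtype.ext ?_⟩
  have : v ^ 7 = 1 := by
    funext a
    have : ∀ z : Multiplicative (ZMod 7), z ^ 7 = 1 := by decide
    exact this _
  simp only [pow_one, Subgroup.coe_pow, Subgroup.coe_one]
  rw [← map_pow, this, map_one]

theorem no72 : ¬ Arc GG 7 2 := by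
  rintro ⟨P, h⟩
  refine norm7 _ (h.trans (idx_dvd pr SemidirectProduct.rightHom_surjective P _ fun x hx _ => ?_))
  exact Subgroup.mem_sup_left (ker7.le_sylow_of_normal P hx)

theorem no27 : ¬ Arc GG 2 7 := by
  rintro ⟨P, h⟩
  refine norm2 _ (h.trans (idx_dvd pr SemidirectProduct.rightHom_surjective P _ fun x hx hn => ?_))
  refine Subgroup.mem_sup_right fun y hy => ?_
  have hd := IsPGroup.disjoint_of_ne 7 2 (by norm_num) _ _ ker7 P.isPGroup'
  have h1 : x * y * x⁻¹ * y⁻¹ ∈ pr.ker := by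
    rw [MonoidHom.mem_ker] at hx ⊢
    rw [map_mul, map_mul, map_mul, map_inv, map_inv, hx]
    simp
  have h2 : x * y * x⁻¹ * y⁻¹ ∈ (P : Subgroup GG) :=
    Subgroup.mul_mem _ ((hn y).1 hy) (Subgroup.inv_mem _ hy)
  have h3 := Subgroup.disjoint_def.1 hd h1 h2
  rw [mul_inv_eq_one, mul_inv_eq_iff_eq_mul] at h3
  exact h3.symm

/-- translations -/
def WW : Subgroup LL where
  carrier := {σ | ∀ a b : Fin 8, σ.1 a ^^^ σ.1 b = a ^^^ b}
  one_mem' := fun _ _ => rfl
  mul_mem' := fun {σ τ} hσ hτ a b => by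
    simp only [Subgroup.coe_mul, Perm.mul_apply]
    rw [hσ, hτ]
  inv_mem' := fun {σ} hσ a b => by
    rw [← hσ]
    simp

instance : WW.Normal := ⟨fun σ hσ τ a b => by
  have c : ∀ x y z : Fin 8, x ^^^ z = y ^^^ z → x = y := by decide
  have h1 := τ.2 (σ.1 (τ.1⁻¹ a)) (σ.1 (τ.1⁻¹ b)) 0
  have h2 := τ.2 (τ.1⁻¹ a) (τ.1⁻¹ b) 0
  rw [hσ, h2] at h1
  simpa using (c _ _ _ h1).symm⟩

theorem WW2 : IsPGroup 2 WW := by
  rintro ⟨σ, hσ⟩
  have c : ∀ x y z : Fin 8, x ^^^ y = y ^^^ z → x = z := by decide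
  exact ⟨1, Subtype.ext (ext_L fun x => c _ _ _ (hσ (σ.1 x) x))⟩

/-- a translation -/
def w0 : LL := ⟨⟨![1, 0, 3, 2, 5, 4, 7, 6], ![1, 0, 3, 2, 5, 4, 7, 6], by decide, by decide⟩,
  by change ∀ a b c : Fin 8, _; decide⟩

/-- the normal subgroup with the extra edge -/
def AA : Subgroup GG := WW.comap pr

theorem arcA : Arc AA 7 2 := by
  obtain ⟨P⟩ : Nonempty (Sylow 7 AA) := inferInstance
  let f : AA →* LL := pr.comp AA.subtype
  have h7 : IsPGroup 7 f.ker := by
    rintro ⟨x, hx⟩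
    obtain ⟨k, hk⟩ := ker7 ⟨x.1, hx⟩
    have hk' : x.1 ^ 7 ^ k = 1 := congrArg Subtype.val hk
    exact ⟨k, Subtype.ext (Subtype.ext hk')⟩
  have hr : f.range ≤ WW := by
    rintro _ ⟨x, rfl⟩
    exact x.2
  have hP : (P : Subgroup AA) = f.ker := by
    refine le_antisymm (fun x hx => ?_) (h7.le_sylow_of_normal P)
    have hd := IsPGroup.disjoint_of_ne 7 2 (by norm_num) _ _ (P.isPGroup'.map f) WW2
    exact Subgroup.disjoint_def.1 hd ⟨x, hx, rfl⟩ x.2
  have hC : Subgroup.centralizer (P : Set AA) ≤ P := by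
    intro x hx
    rw [hP]
    refine inv_eq_one.1 (ext_L fun a => ?_)
    let v : VV := fun b => if b = some a then Multiplicative.ofAdd 1 else 1
    have hv : (SemidirectProduct.inl v : GG) ∈ AA := by
      change pr _ ∈ WW
      rw [SemidirectProduct.rightHom_inl]
      exact WW.one_mem
    have h1 := hx ⟨_, hv⟩ (by
      change _ ∈ (P : Subgroup AA)
      rw [hP]
      exact MonoidHom.mem_ker.2 rfl)
    have h2 := congrFun (congrArg (fun z : AA => z.1.left) h1) (some a)
    simp only [Subgroup.coe_mul, SemidirectProduct.mul_left, SemidirectProduct.left_inl,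
      SemidirectProduct.right_inl, map_one, MulAut.one_apply, Pi.mul_apply, ph_apply] at h2
    rw [mul_comm, mul_right_inj] at h2
    simp only [v, if_true] at h2
    split_ifs at h2 with h3
    · exact Option.some.inj h3
    · exact absurd h2 (by decide)
  refine ⟨P, ?_⟩
  have hN : Subgroup.normalizer (P : Set AA) = ⊤ := by
    change Subgroup.normalizer ((P : Subgroup AA) : Set AA) = ⊤
    rw [Subgroup.normalizer_eq_top_iff, hP]
    infer_instance
  rw [hN, Subgroup.relIndex_top_right, sup_eq_left.2 hC, hP, Subgroup.index_ker]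
  obtain ⟨k, hk⟩ := IsPGroup.iff_card.1 (WW2.to_le hr)
  rw [hk]
  refine dvd_pow_self 2 ?_
  rintro rfl
  rw [pow_zero, Subgroup.card_eq_one] at hk
  have hw : (SemidirectProduct.inr w0 : GG) ∈ AA := by
    change ∀ a b : Fin 8, _
    decide
  have h1 : w0 ∈ f.range := ⟨⟨_, hw⟩, rfl⟩
  rw [hk, Subgroup.mem_bot] at h1
  have := congrArg (fun g : LL => g.1 0) h1
  revert this
  decide

/-- the coordinate at the fixed point -/
def co : GG →* Multiplicative (ZMod 7) where
  toFun x := x.left none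
  map_one' := rfl
  map_mul' _ _ := rfl

theorem main : AA.Normal ∧ co.ker.Normal ∧ AA ≠ ⊤ ∧ co.ker ≠ ⊤ ∧
    (∀ g : GG, ∃ a ∈ AA, ∃ b ∈ co.ker, g = a * b) ∧ Edge AA 7 2 ∧ ¬ Edge GG 7 2 := by
  refine ⟨Subgroup.normal_comap _, inferInstance, fun h => ?_, fun h => ?_, fun g => ?_,
    ⟨by norm_num, by norm_num, by norm_num, Or.inl arcA⟩, fun h => h.2.2.2.elim no72 no27⟩
  · have : (SemidirectProduct.inr g0 : GG) ∈ AA := h ▸ Subgroup.mem_top _
    have := this 0 1
    revert this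
    decide
  · have : (SemidirectProduct.inl fun _ => Multiplicative.ofAdd 1 : GG) ∈ co.ker :=
      h ▸ Subgroup.mem_top _
    exact absurd (MonoidHom.mem_ker.1 this) (by decide)
  · refine ⟨SemidirectProduct.inl g.left, ?_, SemidirectProduct.inr g.right, rfl,
      (SemidirectProduct.inl_left_mul_inr_right g).symm⟩
    change pr _ ∈ WW
    rw [SemidirectProduct.rightHom_inl]
    exact WW.one_mem

end Pool.Agent.H.MP_8e29f8_al
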